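import Pool.Agent.BC.Stmts

/-!
# Module RUC of the squad BCX: from the run to the system
-/

set_option autoImplicit false

open Finset

noncomputable section

namespace Pool.Agent.BC.H65

open Pool.Agent.BC

variable {X : Type} [NormedAddCommGroup X] [NormedSpace ℝ X]

/-- the vectors of the system -/
def vv (x : ℕ → ℤ → X) (n : ℕ → ℕ) (c : (τ : ℕ) → Fin (τ + 1) → ℤ) (t i : ℕ) : X :=
  if h : i < (t - 1) + 1 then x (n (t - 1)) (c (t - 1) ⟨i, h⟩) else 0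

theorem L_vv (x : ℕ → ℤ → X) (n : ℕ → ℕ) (c : (τ : ℕ) → Fin (τ + 1) → ℤ) (τ : ℕ) (a : ℕ → ℝ) :
    L (vv x n c) (τ + 1) a = J x (n τ) (c τ) (fun i => a i) := by
  unfold L J
  rw [Finset.sum_range]
  apply Finset.sum_congr rfl
  intro i _
  unfold vv
  have h : (i : ℕ) < (τ + 1 - 1) + 1 := i.2
  rw [dif_pos h]
  rfl

theorem L_vv' (x : ℕ → ℤ → X) (n : ℕ → ℕ) (c : (τ : ℕ) → Fin (τ + 1) → ℤ) (t : ℕ) (ht : 1 ≤ t)
    (a : ℕ → ℝ) :
    L (vv x n c) t a = J x (n (t - 1)) (c (t - 1)) (fun i => a i) := by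
  obtain ⟨τ, rfl⟩ : ∃ τ, t = τ + 1 := ⟨t - 1, by omega⟩
  rw [L_vv]
  rfl

theorem J_smul (x : ℕ → ℤ → X) {t : ℕ} (n : ℕ) (c : Fin t → ℤ) (r : ℝ) (a : Fin t → ℝ) :
    J x n c (fun i => r * a i) = r • J x n c a := by
  unfold J
  rw [Finset.smul_sum]
  apply Finset.sum_congr rfl
  intro i _
  rw [mul_smul]

theorem RR_eq (τ : ℕ) (a : ℕ → ℝ) :
    (fun i : Fin (τ + 1) => RR (τ + 1) a i) = Rr (sF τ) (fun i : Fin (τ + 1 + 1) => a i) := by
  funext i
  unfold RR Rr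
  have h : ((i : ℕ) = sc (τ + 1)) ↔ i = sF τ := by
    constructor
    · intro h
      exact Fin.ext h
    · intro h
      rw [h]
      rfl
  by_cases hi : i = sF τ
  · have hi' := h.mpr hi
    rw [if_pos hi, if_pos hi']
    rfl
  · have hi' : ¬ ((i : ℕ) = sc (τ + 1)) := fun hh => hi (h.mp hh)
    rw [if_neg hi, if_neg hi']
    rfl

theorem II_eq (τ : ℕ) (a : ℕ → ℝ) :
    (fun i : Fin (τ + 1 + 1) => II (τ + 1) a i) = io (sF τ) (fun i : Fin (τ + 1) => a i) := by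
  funext i
  unfold II io
  refine Fin.lastCases ?_ (fun j => ?_) i
  · have h1 : pr (sF τ) (Fin.last (τ + 1)) = sF τ := by
      unfold pr
      rw [Fin.lastCases_last]
    rw [if_pos h1, if_pos (Or.inr (Fin.val_last (τ + 1)))]
    rfl
  · have h1 : pr (sF τ) (Fin.castSucc j) = j := by
      unfold pr
      rw [Fin.lastCases_castSucc]
    rw [h1]
    by_cases hj : j = sF τ
    · rw [if_pos hj, if_pos (Or.inl (by rw [hj]; rfl))]
      rfl
    · have h2 : ¬ (((Fin.castSucc j : Fin (τ + 1 + 1)) : ℕ) = sc (τ + 1) ∨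
          ((Fin.castSucc j : Fin (τ + 1 + 1)) : ℕ) = τ + 1) := by
        rintro (h | h)
        · exact hj (Fin.ext h)
        · have := j.2
          rw [Fin.val_castSucc] at h
          omega
      rw [if_neg hj, if_neg h2]
      rfl

/-- scaling: from the additive to the multiplicative inequality -/
theorem scale {t : ℕ} (F G : (Fin t → ℝ) → ℝ) (δ η e : ℝ) (_hδ : 0 < δ) (he : 0 < e)
    (hη : η ≤ e * δ)
    (hF : ∀ (r : ℝ) (a : Fin t → ℝ), 0 ≤ r → F (fun i => r * a i) = r * F a)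
    (hG : ∀ (r : ℝ) (a : Fin t → ℝ), 0 ≤ r → G (fun i => r * a i) = r * G a)
    (hGl : ∀ (a : Fin t → ℝ) (i : Fin t), δ * |a i| ≤ G a)
    (hFG : ∀ a : Fin t → ℝ, (∀ i, |a i| ≤ 1) → F a ≤ G a + η) (a : Fin t → ℝ) :
    F a ≤ (1 + e) * G a := by
  by_cases ha : ∀ i, a i = 0
  · have h0 : a = fun i => (0 : ℝ) * a i := by
      funext i
      rw [ha i]; ring
    rw [h0, hF 0 a le_rfl, hG 0 a le_rfl]
    simp
  · rw [not_forall] at ha
    obtain ⟨i0, hi0⟩ := ha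
    obtain ⟨i1, -, hi1⟩ := Finset.exists_max_image (Finset.univ : Finset (Fin t))
      (fun i => |a i|) ⟨i0, Finset.mem_univ _⟩
    obtain ⟨A, hA⟩ : ∃ A : ℝ, A = |a i1| := ⟨_, rfl⟩
    have hA0 : 0 < A := by
      rw [hA]
      have h1 := hi1 i0 (Finset.mem_univ _)
      have h2 : 0 < |a i0| := abs_pos.mpr hi0
      linarith
    obtain ⟨b, hb⟩ : ∃ b : Fin t → ℝ, b = fun i => a i / A := ⟨_, rfl⟩
    have hab : a = fun i => A * b i := by
      funext i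
      rw [hb]
      field_simp
    have hb1 : ∀ i, |b i| ≤ 1 := by
      intro i
      rw [hb]
      show |a i / A| ≤ 1
      rw [abs_div, abs_of_pos hA0, div_le_one hA0, hA]
      exact hi1 i (Finset.mem_univ _)
    have hb2 : |b i1| = 1 := by
      rw [hb]
      show |a i1 / A| = 1
      rw [abs_div, abs_of_pos hA0, ← hA, div_self hA0.ne']
    have h1 := hFG b hb1
    have h2 := hGl b i1
    rw [hb2, mul_one] at h2
    have h3 : F b ≤ (1 + e) * G b := by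
      have h4 : e * δ ≤ e * G b := mul_le_mul_of_nonneg_left h2 he.le
      linarith
    rw [hab, hF A b hA0.le, hG A b hA0.le]
    calc A * F b ≤ A * ((1 + e) * G b) := mul_le_mul_of_nonneg_left h3 hA0.le
      _ = (1 + e) * (A * G b) := by ring

theorem Rr_smul {t : ℕ} (s : Fin t) (r : ℝ) (a : Fin (t + 1) → ℝ) :
    Rr s (fun i => r * a i) = fun i => r * Rr s a i := by
  funext i
  unfold Rr
  by_cases h : i = s
  · rw [if_pos h, if_pos h]; ring
  · rw [if_neg h, if_neg h]; ring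

theorem io_smul {t : ℕ} (s : Fin t) (r : ℝ) (a : Fin t → ℝ) :
    io s (fun i => r * a i) = fun i => r * io s a i := by
  funext i
  unfold io
  by_cases h : pr s i = s
  · rw [if_pos h, if_pos h]; ring
  · rw [if_neg h, if_neg h]

theorem ruc (ruf : RufStmt) (lbd : LbdStmt) : RucStmt := by
  intro X _ _ x hx M₀ γ hM₀ hγ0 hγ1 hTy h hh0 hnode ε hε
  obtain ⟨δ, hδ⟩ : ∃ δ : ℝ, δ = Real.sqrt (h / 2) := ⟨_, rfl⟩
  have hδ0 : 0 < δ := by rw [hδ]; exact Real.sqrt_pos.mpr (by linarith)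
  have hδ2 : δ ^ 2 = h / 2 := by rw [hδ]; exact Real.sq_sqrt (by linarith)
  obtain ⟨M, ρ, n, c, hρ0, hρ1, hst, hos, hlo, hup, hmov⟩ := ruf X x hx M₀ γ hM₀ hγ0 hγ1 hTy h hh0 hnode
    (fun τ => ε (τ + 1) * (δ / 2)) (fun _ => δ ^ 2 / 2)
    (fun τ => mul_pos (hε _) (by linarith)) (fun _ => by positivity)
  have hlow : ∀ (τ : ℕ) (a : Fin (τ + 1) → ℝ) (i : Fin (τ + 1)),
      δ / 2 * |a i| ≤ ‖J x (n τ) (c τ) a‖ := by
    intro τ a i
    exact lbd X x hx (τ + 1) (n τ) (c τ) (δ ^ 2 / 2) δ hδ0 le_rfl (hst τ)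
      (fun i => by rw [hδ2]; exact hos τ i) a i
  refine ⟨vv x n c, δ / 2, M, ρ, by linarith, hρ0, hρ1, ?_⟩
  constructor
  · intro t i hi
    unfold vv
    have h1 : i < (t - 1) + 1 := by omega
    rw [dif_pos h1]
    exact hx.1 _ _
  · intro t ht a
    obtain ⟨τ, rfl⟩ : ∃ τ, t = τ + 1 := ⟨t - 1, by omega⟩
    rw [L_vv, L_vv, II_eq]
    refine scale (F := fun b => ‖J x (n (τ + 1)) (c (τ + 1)) (io (sF τ) b)‖)
      (G := fun b => ‖J x (n τ) (c τ) b‖) (δ / 2) (ε (τ + 1) * (δ / 2)) (ε (τ + 1))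
      (by linarith) (hε _) le_rfl ?_ ?_ (hlow τ) (hup τ) _
    · intro r b hr
      show ‖J x (n (τ + 1)) (c (τ + 1)) (io (sF τ) (fun i => r * b i))‖ =
        r * ‖J x (n (τ + 1)) (c (τ + 1)) (io (sF τ) b)‖
      rw [io_smul, J_smul, norm_smul, Real.norm_of_nonneg hr]
    · intro r b hr
      show ‖J x (n τ) (c τ) (fun i => r * b i)‖ = r * ‖J x (n τ) (c τ) b‖
      rw [J_smul, norm_smul, Real.norm_of_nonneg hr]
  · intro t ht a
    obtain ⟨τ, rfl⟩ : ∃ τ, t = τ + 1 := ⟨t - 1, by omega⟩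
    rw [L_vv, L_vv, RR_eq]
    refine scale (F := fun b => ‖J x (n τ) (c τ) (Rr (sF τ) b)‖)
      (G := fun b => ‖J x (n (τ + 1)) (c (τ + 1)) b‖) (δ / 2) (ε (τ + 1) * (δ / 2)) (ε (τ + 1))
      (by linarith) (hε _) le_rfl ?_ ?_ (hlow (τ + 1)) (hlo τ) _
    · intro r b hr
      show ‖J x (n τ) (c τ) (Rr (sF τ) (fun i => r * b i))‖ =
        r * ‖J x (n τ) (c τ) (Rr (sF τ) b)‖
      rw [Rr_smul, J_smul, norm_smul, Real.norm_of_nonneg hr]
    · intro r b hr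
      show ‖J x (n (τ + 1)) (c (τ + 1)) (fun i => r * b i)‖ =
        r * ‖J x (n (τ + 1)) (c (τ + 1)) b‖
      rw [J_smul, norm_smul, Real.norm_of_nonneg hr]
  · intro t ht a i hi
    obtain ⟨τ, rfl⟩ : ∃ τ, t = τ + 1 := ⟨t - 1, by omega⟩
    rw [L_vv]
    exact hlow τ (fun i => a i) ⟨i, hi⟩
  · intro k k₀ j₀ hk hj
    rw [L_vv' x n c (2 ^ (k + 1)) Nat.one_le_two_pow, L_vv' x n c (2 ^ k) Nat.one_le_two_pow]
    exact hmov k k₀ j₀ hk hj

end Pool.Agent.BC.H65
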