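import Pool.Agent.BC.Stmts
import Pool.Agent.Helper51_BC.Tool

/-!
# Module RUP of the squad BCX: the upper inequality is likely
-/

set_option autoImplicit false

open Finset

noncomputable section

namespace Pool.Agent.BC.H65

open Pool.Agent.BC Pool.Agent.BC.H51

/-- the net of coefficients -/
def net {t : ℕ} (M : ℕ) (k : Fin t → Fin (2 * M + 1)) : Fin t → ℝ :=
  fun i => (((k i : ℕ) : ℝ) - M) / M

theorem net_abs {t : ℕ} {M : ℕ} (hM : 0 < M) (k : Fin t → Fin (2 * M + 1)) (i : Fin t) :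
    |net M k i| ≤ 1 := by
  unfold net
  have hMr : (0 : ℝ) < M := by exact_mod_cast hM
  have h1 : ((k i : ℕ) : ℝ) ≤ 2 * M := by
    have := (k i).2
    exact_mod_cast (by omega : (k i : ℕ) ≤ 2 * M)
  have h0 : (0 : ℝ) ≤ ((k i : ℕ) : ℝ) := Nat.cast_nonneg _
  rw [abs_le]
  constructor
  · rw [le_div_iff₀ hMr]; linarith
  · rw [div_le_iff₀ hMr]; linarith

theorem net_approx {t : ℕ} {M : ℕ} (hM : 0 < M) (a : Fin t → ℝ) (ha : ∀ i, |a i| ≤ 1) :
    ∃ k : Fin t → Fin (2 * M + 1), ∀ i, |a i - net M k i| ≤ 1 / M := by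
  have hMr : (0 : ℝ) < M := by exact_mod_cast hM
  have hf : ∀ i, ⌊(a i + 1) * M⌋₊ < 2 * M + 1 := by
    intro i
    have h1 := (abs_le.mp (ha i)).2
    have h2 : (a i + 1) * M ≤ ((2 * M : ℕ) : ℝ) := by push_cast; nlinarith
    have := Nat.floor_le_of_le h2
    omega
  refine ⟨fun i => ⟨⌊(a i + 1) * M⌋₊, hf i⟩, fun i => ?_⟩
  have h1 := (abs_le.mp (ha i)).1
  have h2 : 0 ≤ (a i + 1) * M := mul_nonneg (by linarith) hMr.le
  have h3 := Nat.floor_le h2
  have h4 := Nat.lt_floor_add_one ((a i + 1) * M)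
  show |a i - ((⌊(a i + 1) * M⌋₊ : ℝ) - M) / M| ≤ 1 / M
  have e : a i - ((⌊(a i + 1) * M⌋₊ : ℝ) - M) / M =
      ((a i + 1) * M - (⌊(a i + 1) * M⌋₊ : ℝ)) / M := by
    field_simp
    ring
  rw [e, abs_div, abs_of_pos hMr]
  apply div_le_div_of_nonneg_right _ hMr.le
  rw [abs_of_nonneg (by linarith)]
  linarith

variable {X : Type} [NormedAddCommGroup X] [NormedSpace ℝ X]

theorem J_diff {x : ℕ → ℤ → X} (hx : IsT x) {t : ℕ} (n : ℕ) (c : Fin t → ℤ) (a b : Fin t → ℝ)
    (r : ℝ) (h : ∀ i, |a i - b i| ≤ r) : ‖J x n c a - J x n c b‖ ≤ t * r := by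
  have e : J x n c a - J x n c b = ∑ i, (a i - b i) • x n (c i) := by
    unfold J
    rw [← Finset.sum_sub_distrib]
    apply Finset.sum_congr rfl
    intro i _
    rw [sub_smul]
  rw [e]
  calc ‖∑ i, (a i - b i) • x n (c i)‖ ≤ ∑ i, ‖(a i - b i) • x n (c i)‖ := norm_sum_le _ _
    _ ≤ ∑ _i : Fin t, r := by
        apply Finset.sum_le_sum
        intro i _
        rw [norm_smul, Real.norm_eq_abs]
        have h1 := hx.1 n (c i)
        have h2 := h i
        have h3 := abs_nonneg (a i - b i)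
        nlinarith [norm_nonneg (x n (c i))]
    _ = t * r := by simp

/-- the first embedding -/
def e0 {t : ℕ} (i : Fin t) : Fin (t + 1) := i.castSucc

/-- the second embedding -/
def e1 {t : ℕ} (s : Fin t) (i : Fin t) : Fin (t + 1) := if i = s then Fin.last t else i.castSucc

theorem e0_inj {t : ℕ} : Function.Injective (e0 : Fin t → Fin (t + 1)) :=
  Fin.castSucc_injective t

theorem e1_inj {t : ℕ} (s : Fin t) : Function.Injective (e1 s) := by
  intro i j hij
  unfold e1 at hij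
  by_cases hi : i = s <;> by_cases hj : j = s
  · rw [hi, hj]
  · rw [if_pos hi, if_neg hj] at hij
    exact absurd hij.symm (Fin.castSucc_lt_last j).ne
  · rw [if_neg hi, if_pos hj] at hij
    exact absurd hij (Fin.castSucc_lt_last i).ne
  · rw [if_neg hi, if_neg hj] at hij
    exact Fin.castSucc_injective t hij

theorem pr_castSucc {t : ℕ} (s i : Fin t) : pr s i.castSucc = i := by
  unfold pr
  rw [Fin.lastCases_castSucc]

theorem pr_last {t : ℕ} (s : Fin t) : pr s (Fin.last t) = s := by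
  unfold pr
  rw [Fin.lastCases_last]

theorem comp_e0 {t : ℕ} (s : Fin t) (c : Fin t → ℤ) : (c ∘ pr s) ∘ e0 = c := by
  funext i
  show c (pr s (e0 i)) = c i
  unfold e0
  rw [pr_castSucc]

theorem comp_e1 {t : ℕ} (s : Fin t) (c : Fin t → ℤ) : (c ∘ pr s) ∘ e1 s = c := by
  funext i
  show c (pr s (e1 s i)) = c i
  unfold e1
  by_cases hi : i = s
  · rw [if_pos hi, pr_last, hi]
  · rw [if_neg hi, pr_castSucc]

theorem J_io (x : ℕ → ℤ → X) {t : ℕ} (s : Fin t) (n : ℕ) (d : Fin (t + 1) → ℤ) (a : Fin t → ℝ) :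
    J x n d (io s a) = (1 / 2 : ℝ) • (J x n (d ∘ e0) a + J x n (d ∘ e1 s) a) := by
  unfold J
  rw [Fin.sum_univ_castSucc]
  have h1 : ∀ i : Fin t, io s a i.castSucc = a i - if i = s then a s / 2 else 0 := by
    intro i
    unfold io
    rw [pr_castSucc]
    by_cases hi : i = s
    · rw [if_pos hi, if_pos hi, hi]; ring
    · rw [if_neg hi, if_neg hi]; ring
  have h2 : io s a (Fin.last t) = a s / 2 := by
    unfold io
    rw [pr_last, if_pos rfl]
  have h3 : ∑ i : Fin t, a i • x n ((d ∘ e1 s) i) =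
      (∑ i : Fin t, a i • x n (d i.castSucc)) - a s • x n (d s.castSucc) + a s • x n (d (Fin.last t)) := by
    rw [← Finset.add_sum_erase _ _ (Finset.mem_univ s), ← Finset.add_sum_erase Finset.univ
      (fun i : Fin t => a i • x n (d i.castSucc)) (Finset.mem_univ s)]
    have h4 : (d ∘ e1 s) s = d (Fin.last t) := by
      show d (e1 s s) = _
      unfold e1
      rw [if_pos rfl]
    have h5 : ∑ i ∈ Finset.univ.erase s, a i • x n ((d ∘ e1 s) i) =
        ∑ i ∈ Finset.univ.erase s, a i • x n (d i.castSucc) := by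
      apply Finset.sum_congr rfl
      intro i hi
      have hi' : i ≠ s := (Finset.mem_erase.mp hi).1
      show a i • x n (d (e1 s i)) = _
      unfold e1
      rw [if_neg hi']
    rw [h4, h5]
    abel
  rw [h3, h2]
  have h6 : ∑ i : Fin t, io s a i.castSucc • x n (d i.castSucc) =
      (∑ i : Fin t, a i • x n (d i.castSucc)) - (a s / 2) • x n (d s.castSucc) := by
    have : ∀ i ∈ (Finset.univ : Finset (Fin t)), io s a i.castSucc • x n (d i.castSucc) =
        a i • x n (d i.castSucc) - (if i = s then (a s / 2) • x n (d s.castSucc) else 0) := by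
      intro i _
      rw [h1]
      by_cases hi : i = s
      · rw [if_pos hi, if_pos hi, sub_smul, hi]
      · rw [if_neg hi, if_neg hi, sub_zero, sub_zero]
    rw [Finset.sum_congr rfl this, Finset.sum_sub_distrib, Finset.sum_ite_eq' Finset.univ s
      (fun _ => (a s / 2) • x n (d s.castSucc))]
    rw [if_pos (Finset.mem_univ s)]
  rw [h6]
  have h7 : ∑ i : Fin t, a i • x n ((d ∘ e0) i) = ∑ i : Fin t, a i • x n (d i.castSucc) := rfl
  rw [h7]
  module

theorem rup (mar : MarStmt) (jen : JenStmt) : RupStmt := by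
  intro X _ _ t s η hη
  obtain ⟨M, hM0, hM⟩ : ∃ M : ℕ, 0 < M ∧ (2 * (t : ℝ) + 1) * (1 / (M : ℝ)) ≤ η / 2 := by
    obtain ⟨M, hM⟩ := exists_nat_gt (2 * (2 * (t : ℝ) + 1) / η)
    have h0 : 0 ≤ 2 * (2 * (t : ℝ) + 1) / η := by positivity
    have hM0 : (0 : ℝ) < M := lt_of_le_of_lt h0 hM
    refine ⟨M, by exact_mod_cast hM0, ?_⟩
    rw [div_lt_iff₀ hη] at hM
    rw [mul_one_div, div_le_iff₀ hM0]
    linarith
  obtain ⟨c₁, hc₁⟩ : ∃ c₁ : ℕ, c₁ = Fintype.card (Fin t → Fin (2 * M + 1)) := ⟨_, rfl⟩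
  obtain ⟨κ, hκ⟩ : ∃ κ : ℝ, κ = η * (η / 2) ^ 2 / (2 * ((c₁ : ℝ) + 1)) := ⟨_, rfl⟩
  have hκ0 : 0 < κ := by rw [hκ]; positivity
  refine ⟨κ, hκ0, ?_⟩
  intro x n c hx hst m
  -- the good event
  obtain ⟨A, hA⟩ : ∃ A : (Fin t → Fin (2 * M + 1)) → (Fin (t + 1) → ℤ) → Prop, A = fun k d =>
      (‖J x (n + m) (d ∘ e0) (net M k)‖ - ‖J x n c (net M k)‖) ^ 2 ≤ (η / 2) ^ 2 ∧
      (‖J x (n + m) (d ∘ e1 s) (net M k)‖ - ‖J x n c (net M k)‖) ^ 2 ≤ (η / 2) ^ 2 := ⟨_, rfl⟩
  have hmono : bad m (fun d => Up x s η n c (n + m) d) (c ∘ pr s) ≤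
      bad m (fun d => ∀ k ∈ (Finset.univ : Finset (Fin t → Fin (2 * M + 1))), A k d)
        (c ∘ pr s) := by
    apply bad_mono
    intro d hd a ha
    obtain ⟨k, hk⟩ := net_approx hM0 a ha
    have hd' := hd k (Finset.mem_univ k)
    rw [hA] at hd'
    obtain ⟨h1, h2⟩ := hd'
    have h1' := abs_le_of_sq_le_sq h1 (by linarith)
    have h2' := abs_le_of_sq_le_sq h2 (by linarith)
    have h3 : ‖J x (n + m) d (io s (net M k))‖ ≤ ‖J x n c (net M k)‖ + η / 2 := by
      rw [J_io, norm_smul, Real.norm_of_nonneg (by norm_num : (0 : ℝ) ≤ 1 / 2)]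
      have h4 := norm_add_le (J x (n + m) (d ∘ e0) (net M k)) (J x (n + m) (d ∘ e1 s) (net M k))
      have h5 := (abs_le.mp h1').2
      have h6 := (abs_le.mp h2').2
      linarith
    have h4 := J_diff hx n c (net M k) a (1 / M) (fun i => by rw [abs_sub_comm]; exact hk i)
    have h5 := J_diff hx (n + m) d (io s a) (io s (net M k)) (1 / M) (fun i => by
      unfold io
      by_cases hi : pr s i = s
      · rw [if_pos hi, if_pos hi]
        have e : a s / 2 - net M k s / 2 = (a s - net M k s) / 2 := by ring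
        rw [e, abs_div, abs_of_pos (by norm_num : (0 : ℝ) < 2)]
        have := hk s
        have h0 := abs_nonneg (a s - net M k s)
        linarith
      · rw [if_neg hi, if_neg hi]
        exact hk _)
    have h6 : ‖J x n c (net M k)‖ ≤ ‖J x n c a‖ + ‖J x n c (net M k) - J x n c a‖ := by
      have := norm_sub_norm_le (J x n c (net M k)) (J x n c a)
      linarith
    have h7 : ‖J x (n + m) d (io s a)‖ ≤ ‖J x (n + m) d (io s (net M k))‖ +
        ‖J x (n + m) d (io s a) - J x (n + m) d (io s (net M k))‖ := by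
      have := norm_sub_norm_le (J x (n + m) d (io s a)) (J x (n + m) d (io s (net M k)))
      linarith
    have h8 : ((t + 1 : ℕ) : ℝ) * (1 / (M : ℝ)) + (t : ℝ) * (1 / (M : ℝ)) =
        (2 * (t : ℝ) + 1) * (1 / (M : ℝ)) := by
      push_cast; ring
    linarith
  refine hmono.trans ((bad_forall _).trans ?_)
  have hone : ∀ k : Fin t → Fin (2 * M + 1), bad m (A k) (c ∘ pr s) ≤ 2 * (κ / (η / 2) ^ 2) := by
    intro k
    have hnet : ∀ i, |net M k i| ≤ 1 := net_abs hM0 k
    have hb : ∀ e : Fin t → Fin (t + 1), Function.Injective e → (c ∘ pr s) ∘ e = c →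
        bad m (fun d => (‖J x (n + m) (d ∘ e) (net M k)‖ - ‖J x n c (net M k)‖) ^ 2 ≤ (η / 2) ^ 2)
          (c ∘ pr s) ≤ κ / (η / 2) ^ 2 := by
      intro e he hce
      refine (markov (by positivity) (fun r => sq_nonneg _)).trans ?_
      apply div_le_div_of_nonneg_right _ (by positivity)
      have h1 := (mar ℝ m).1 t (t + 1) e he
        (fun d' => (‖J x (n + m) d' (net M k)‖ - ‖J x n c (net M k)‖) ^ 2) (c ∘ pr s)
      rw [h1, hce]
      obtain ⟨y, hy⟩ : ∃ y : ℝ, y = ‖J x n c (net M k)‖ := ⟨_, rfl⟩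
      have h2 := hst m (net M k) hnet
      have h3 := ((jen X x hx).2.2.2 t n m c (net M k)).2.1 0
      simp only [sub_zero] at h3
      rw [← hy] at h2 h3 ⊢
      have e1 : (fun d' : Fin t → ℤ => (‖J x (n + m) d' (net M k)‖ - y) ^ 2) =
          fun d' => (‖J x (n + m) d' (net M k)‖ ^ 2 - (2 * y) * ‖J x (n + m) d' (net M k)‖) +
            y ^ 2 := by
        funext d'; ring
      rw [e1, av_add (fun d' => ‖J x (n + m) d' (net M k)‖ ^ 2 -
        (2 * y) * ‖J x (n + m) d' (net M k)‖) (fun _ => y ^ 2),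
        av_sub (fun d' => ‖J x (n + m) d' (net M k)‖ ^ 2)
        (fun d' => (2 * y) * ‖J x (n + m) d' (net M k)‖), av_const, av_mul]
      have hy0 : 0 ≤ y := by rw [hy]; exact norm_nonneg _
      nlinarith
    rw [hA]
    refine bad_and.trans ?_
    have h1 := hb e0 e0_inj (comp_e0 s c)
    have h2 := hb (e1 s) (e1_inj s) (comp_e1 s c)
    linarith
  calc ∑ k : Fin t → Fin (2 * M + 1), bad m (A k) (c ∘ pr s)
      ≤ ∑ _k : Fin t → Fin (2 * M + 1), 2 * (κ / (η / 2) ^ 2) :=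
        Finset.sum_le_sum (fun k _ => hone k)
    _ = (c₁ : ℝ) * (2 * (κ / (η / 2) ^ 2)) := by
        rw [Finset.sum_const, nsmul_eq_mul, hc₁, Finset.card_univ]
    _ ≤ ((c₁ : ℝ) + 1) * (2 * (κ / (η / 2) ^ 2)) := by
        apply mul_le_mul_of_nonneg_right (by linarith) (by positivity)
    _ = η := by
        rw [hκ]
        field_simp

end Pool.Agent.BC.H65
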